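import Pool.Agent.H88.MCR.Stmts

/-!
Row DRW of MP_ffb5eb_co: the drawing of the complete graph given by a good generic diagram.
-/

namespace Pool.MCR

private theorem drw_ne {V : Type} {e : V → ℕ} (he : Function.Injective e) {u v u' v' : V}
    (h : s(u, v) ≠ s(u', v')) :
    ¬ (e u = e u' ∧ e v = e v') ∧ ¬ (e u = e v' ∧ e v = e u') := by
  constructor
  · rintro ⟨h1, h2⟩
    exact h (by rw [he h1, he h2])
  · rintro ⟨h1, h2⟩
    exact h (by rw [he h1, he h2, Sym2.eq_swap])

theorem drw_thm (h1 : KIT_S) (h2 : CUR_S) (h3 : CPP_S) (h4 : CPT_S) (h5 : CPV_S) (h6 : IN1_S) :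
    DRW_S := by
  intro V n e D T he hn hD hT hG
  -- the arcs
  let arc : Sym2 V → Set (ℝ × ℝ) :=
    fun q => {p | ∃ u v, q = s(u, v) ∧ u ≠ v ∧ p ∈ curve (D.A (e u) (e v))}
  let pos : V → ℝ × ℝ := fun v => (D.pos (e v), 0)
  have hne : ∀ {u v : V}, u ≠ v → e u ≠ e v := fun h h' => h (he h')
  have harc : ∀ u v : V, u ≠ v → arc s(u, v) = curve (D.A (e u) (e v)) := by
    intro u v huv
    ext p
    constructor
    · rintro ⟨a, b, hab, hne', hp⟩
      rcases Sym2.eq_iff.1 hab with ⟨rfl, rfl⟩ | ⟨rfl, rfl⟩
      · exact hp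
      · rw [(h5 n D hD (e v) (hn v) (e u) (hn u) (hne hne')).2.2.2.2]
        exact hp
    · intro hp
      exact ⟨u, v, rfl, huv, hp⟩
  -- the three conditions on pairs and triples of edges
  have hcom : ∀ u v u' v' : V, u ≠ v → u' ≠ v' → s(u, v) ≠ s(u', v') →
      (arc s(u, v) ∩ arc s(u', v')).Subsingleton ∧
      ∀ p, p ∈ arc s(u, v) → p ∈ arc s(u', v') → p ∉ Set.range pos →
        ProperCrossing (arc s(u, v)) (arc s(u', v')) p := by
    intro u v u' v' huv huv' hq
    obtain ⟨hq1, hq2⟩ := drw_ne he hq
    obtain ⟨hs, hp⟩ := h3 n D hD (e u) (hn u) (e v) (hn v) (e u') (hn u') (e v') (hn v')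
      (hne huv) (hne huv') hq1 hq2
    rw [harc u v huv, harc u' v' huv']
    refine ⟨hs, fun p hp1 hp2 hpr => ?_⟩
    rcases hp p hp1 hp2 with ⟨-, w, hw, -, hpw⟩ | ⟨-, -, h⟩
    · exfalso
      rcases hw with rfl | rfl
      · exact hpr ⟨u, hpw.symm⟩
      · exact hpr ⟨v, hpw.symm⟩
    · exact h
  let Dr : Drawing (⊤ : SimpleGraph V) :=
    { pos := pos
      arc := arc
      pos_inj := by
        intro u v huv
        exact he (hD.pos_inj (e u) (hn u) (e v) (hn v) (congrArg Prod.fst huv))
      arc_curve := by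
        intro u v huv
        have huv' : u ≠ v := huv
        rw [harc u v huv']
        exact h2 (D.pos (e u)) (D.E (e u) (e v)) (D.pos (e v)) (D.S (e u) (e v))
          ((h1 ℝ n D hD).1 (e u) (hn u) (e v) (hn v) (hne huv')).1
          (hD.self (e u) (hn u) (e v) (hn v) (hne huv'))
      arc_vertex := by
        intro u v w huv hw
        have huv' : u ≠ v := huv
        rw [harc u v huv'] at hw
        rcases (h5 n D hD (e u) (hn u) (e v) (hn v) (hne huv')).2.2.2.1 (e w) (hn w) hw with h | h
        · exact Or.inl (he h)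
        · exact Or.inr (he h)
      arc_inter := by
        intro q hq q' hq' hqq
        induction q using Sym2.ind with
        | _ u v =>
          induction q' using Sym2.ind with
          | _ u' v' =>
            have huv : u ≠ v := hq
            have huv' : u' ≠ v' := hq'
            exact (hcom u v u' v' huv huv' hqq).1
      arc_triple := by
        intro q hq q' hq' q'' hq'' hqq hqq' hqq'' p hp hp' hp''
        induction q using Sym2.ind with
        | _ u v =>
          induction q' using Sym2.ind with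
          | _ u' v' =>
            induction q'' using Sym2.ind with
            | _ u'' v'' =>
              have huv : u ≠ v := hq
              have huv' : u' ≠ v' := hq'
              have huv'' : u'' ≠ v'' := hq''
              obtain ⟨a1, a2⟩ := drw_ne he hqq
              obtain ⟨b1, b2⟩ := drw_ne he hqq'
              obtain ⟨c1, c2⟩ := drw_ne he hqq''
              rw [harc u v huv] at hp
              rw [harc u' v' huv'] at hp'
              rw [harc u'' v'' huv''] at hp''
              have h0 : p.2 = 0 := h4 n D hD hG (e u) (hn u) (e v) (hn v) (e u') (hn u')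
                (e v') (hn v') (e u'') (hn u'') (e v'') (hn v'') (hne huv) (hne huv')
                (hne huv'') a1 a2 b1 b2 c1 c2 p hp hp' hp''
              rcases (h3 n D hD (e u) (hn u) (e v) (hn v) (e u') (hn u') (e v') (hn v')
                (hne huv) (hne huv') a1 a2).2 p hp hp' with ⟨-, w, hw, -, hpw⟩ | ⟨h, -, -⟩
              · rcases hw with rfl | rfl
                · exact ⟨u, hpw.symm⟩
                · exact ⟨v, hpw.symm⟩
              · exact absurd h0 h
      arc_proper := by
        intro q hq q' hq' hqq p hp hp' hpr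
        induction q using Sym2.ind with
        | _ u v =>
          induction q' using Sym2.ind with
          | _ u' v' =>
            have huv : u ≠ v := hq
            have huv' : u' ≠ v' := hq'
            exact (hcom u v u' v' huv huv' hqq).2 p hp hp' hpr }
  refine ⟨Dr, fun u v u' v' huv huv' a b c d hT1 hT2 => ?_⟩
  obtain ⟨A, hA, B, hB, hs, hI⟩ := hT (e u) (hn u) (e v) (hn v) (e u') (hn u') (e v') (hn v')
    (hne huv) (hne huv') (hne a) (hne b) (hne c) (hne d) hT1 hT2
  obtain ⟨p, hp0, hp⟩ := h6 A.1 A.2.1 A.2.2 B.2.1 B.2.2 hI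
  have hp' : p ∈ arcSet A.1 A.2.1 A.2.2 ∩ arcSet A.1 B.2.1 B.2.2 := by
    rw [hp]
    exact Set.mem_singleton p
  refine ⟨p, ?_, ?_, ?_⟩
  · show p ∈ arc s(u, v)
    rw [harc u v huv]
    exact ⟨A, hA, hp'.1⟩
  · show p ∈ arc s(u', v')
    rw [harc u' v' huv']
    refine ⟨B, hB, ?_⟩
    rw [← hs]
    exact hp'.2
  · rintro ⟨w, hw⟩
    apply hp0
    rw [← hw]

end Pool.MCR
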